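import Mathlib

set_option autoImplicit false
open Finset SimpleGraph

namespace Pool.Agent.Results.MP_be01c1_co.NonIso

/-- The Gilbert graph. -/
def G0 (q n d : ℕ) : SimpleGraph (Fin n → ZMod q) where
  Adj u v := 1 ≤ hammingNorm (u - v) ∧ hammingNorm (u - v) ≤ d - 1
  symm := ⟨fun u v h => by rwa [← neg_sub, show hammingNorm (-(u - v)) = hammingNorm (u - v) by
    simp [hammingNorm, -neg_sub]]⟩
  loopless := ⟨by simp⟩

/-- The character sum eigenvalue of the whole Gilbert graph. -/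
noncomputable def lam (q n d : ℕ) [NeZero q] (v : Fin n → ZMod q) : ℂ :=
  ∑ u : Fin n → ZMod q with 1 ≤ hammingNorm u ∧ hammingNorm u ≤ d - 1,
    Complex.exp (2 * Real.pi * Complex.I / q) ^ (u ⬝ᵥ v).val

def f (k : Fin 256) : Fin 8 → ZMod 2 := fun i => if k.1.testBit i then 1 else 0

theorem bij : f.Bijective := by
  refine (Fintype.bijective_iff_injective_and_card f).mpr ⟨Function.LeftInverse.injective
    (g := fun u => Fin.ofNat 256 (∑ i : Fin 8, (u i).val * 2 ^ i.1)) ?_, by simp⟩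
  unfold Function.LeftInverse; decide +kernel

def w (k : ℕ) : ℕ := k % 2 + k / 2 % 2 + k / 4 % 2 + k / 8 % 2 + k / 16 % 2 + k / 32 % 2 +
  k / 64 % 2 + k / 128 % 2

theorem hw : ∀ k : Fin 256, hammingNorm (f k) = w k := by decide +kernel

theorem hx (a b : Fin 256) : f a - f b = f (a ^^^ b) := by
  ext i
  have : (a ^^^ b).1 = a.1 ^^^ b.1 := Fin.xor_val_of_two_pow (w := 8) a b
  simp only [f, Pi.sub_apply, this, Nat.testBit_xor]
  cases a.1.testBit i <;> cases b.1.testBit i <;> rfl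

theorem hd (a b : Fin 256) : (f a ⬝ᵥ f b).val = w (a &&& b).1 % 2 := by
  have : f a ⬝ᵥ f b = f (a &&& b) ⬝ᵥ fun _ => 1 := sum_congr rfl fun i _ => by
    simp only [f, Fin.and_val, Nat.testBit_and]
    cases a.1.testBit i <;> cases b.1.testBit i <;> rfl
  rw [this]
  generalize a &&& b = c
  revert c; decide +kernel

def L (v : Fin 256) : ℤ := ∑ u : Fin 256, if 1 ≤ w u ∧ w u ≤ 4 then (-1) ^ (w (u &&& v).1 % 2) else 0

theorem hl (v : Fin 256) : lam 2 8 5 (f v) = L v := by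
  rw [lam, sum_filter, ← bij.sum_comp, show (2 * Real.pi * Complex.I / (2 : ℕ)) =
    Real.pi * Complex.I by push_cast; ring, Complex.exp_pi_mul_I]
  simp only [hw, hd, L]
  push_cast; rfl

noncomputable def tri {V : Type} (G : SimpleGraph V) (x : V) : ℕ :=
  {p : V × V | G.Adj x p.1 ∧ G.Adj x p.2 ∧ G.Adj p.1 p.2}.ncard

set_option maxRecDepth 4000 in
theorem ht (v : Fin 256) (x : {u | u ⬝ᵥ f v = 0}) : tri ((G0 2 8 5).induce _) x =
    ∑ a : Fin 256, if w (a &&& v).1 % 2 = 0 ∧ 1 ≤ w a ∧ w a ≤ 4 then ∑ b : Fin 256,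
      if w (b &&& v).1 % 2 = 0 ∧ (1 ≤ w b ∧ w b ≤ 4) ∧ 1 ≤ w (b ^^^ a).1 ∧ w (b ^^^ a).1 ≤ 4 then 1
      else 0 else 0 := by
  have : tri ((G0 2 8 5).induce _) x = #{p : Fin 256 × Fin 256 | (w (p.1 &&& v).1 % 2 = 0 ∧
      1 ≤ w p.1 ∧ w p.1 ≤ 4) ∧ w (p.2 &&& v).1 % 2 = 0 ∧ (1 ≤ w p.2 ∧ w p.2 ≤ 4) ∧
      1 ≤ w (p.2 ^^^ p.1).1 ∧ w (p.2 ^^^ p.1).1 ≤ 4} := by
    rw [← Set.ncard_coe_finset]
    simp only [← hd, ZMod.val_eq_zero]
    simp only [← hw, ← hx]
    have : x.1 ⬝ᵥ f v = 0 := x.2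
    symm
    refine Set.ncard_congr (fun p hp => (⟨x - f p.1, ?_⟩, ⟨x - f p.2, ?_⟩)) ?_ ?_ ?_
    · simp_all [sub_dotProduct]
    · simp_all [sub_dotProduct]
    · simp +contextual [G0]
    · simp +contextual [bij.1.eq_iff]
    · rintro ⟨a, b⟩ h
      obtain ⟨s, hs⟩ := bij.2 (x - a)
      obtain ⟨t, ht⟩ := bij.2 (x - b)
      have : a.1 ⬝ᵥ f v = 0 := a.2
      have : b.1 ⬝ᵥ f v = 0 := b.2
      exact ⟨(s, t), by simp_all [G0, sub_dotProduct], by simp [hs, ht]⟩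
  rw [this, card_filter, Fintype.sum_prod_type]
  exact sum_congr rfl fun a _ => by
    split_ifs with h <;> simp only [h, true_and, false_and, if_false, sum_const_zero]

theorem result : ∃ (q : ℕ) (_ : Fact q.Prime) (n d : ℕ) (v v' : Fin n → ZMod q), 1 ≤ n ∧ 2 ≤ d ∧
    G0 q n d ≠ ⊥ ∧ (∀ u, (lam q n d v).re ≤ (lam q n d u).re) ∧ lam q n d v' = lam q n d v ∧
    IsEmpty ((G0 q n d).induce {u | u ⬝ᵥ v = 0} ≃g (G0 q n d).induce {u | u ⬝ᵥ v' = 0}) := by
  refine ⟨2, inferInstance, 8, 5, f 3, f 7, by norm_num, by norm_num, fun h => ?_, fun u => ?_, ?_,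
    ⟨fun e => ?_⟩⟩
  · exact (h ▸ (show (G0 2 8 5).Adj (f 1) (f 0) by simp only [G0, hx, hw]; decide) :
      (⊥ : SimpleGraph _).Adj _ _)
  · obtain ⟨u, rfl⟩ := bij.2 u
    simp only [hl, Complex.intCast_re, Int.cast_le, show L 3 = -6 by decide +kernel]
    revert u; decide +kernel
  · rw [hl, hl, show L 7 = L 3 by decide +kernel]
  · have : ∀ x, tri ((G0 2 8 5).induce _) (e x) = tri ((G0 2 8 5).induce _) x := fun x => by
      symm
      refine Set.ncard_congr (fun p _ => (e p.1, e p.2)) (by simp [-comap_adj, e.map_adj_iff])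
        (by simp +contextual) fun p h => ⟨(e.symm p.1, e.symm p.2), ?_, by simp⟩
      simpa [-comap_adj, ← e.map_adj_iff] using h
    have := this ⟨0, by simp⟩
    rw [ht, ht] at this
    revert this; decide +kernel

end Pool.Agent.Results.MP_be01c1_co.NonIso
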